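import Pool.Agent.H419.SP.Final

/-!
# The Sato-Tate law along sparse sets of primes: the exact dimension of the exceptional set

`K` is a number field, `G` for example `USp(2g)` for a generic curve (any compact group with
a countable base) and `x v ∈ G` the classes; parts 1 and 2 are unconditional and hold for arbitrary
`x v ∈ G`.  Let `0 < τ < 1`.  The primes `v` with `‖α q_v‖ ≤ q_v^{-τ}` (`‖.‖` is the distance to the
next integer) form a set of density zero: one expects about `N^{1-τ} / log N` of them with `q_v ≤ N`.

1. For all real `α` outside a set of Hausdorff dimension `2τ/(1+τ)` (`< 1`) they are the expected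
   number asymptotically, and they are typical for the classes: the mean value of `f(x_v)` over them
   agrees in the limit with the mean value over all primes with the weights `q_v^{-τ}`, for all
   continuous `f`.  The same holds for the primes with `‖α q_v - b_v‖ ≤ q_v^{-τ}` and arbitrary real
   centres `b_v`.
2. The dimension `2τ/(1+τ)` is the exact one for `b = 0`, for all `K` and `x`.
3. For the typical `α` the Sato-Tate law holds for the family if and only if it holds along the
   sparse set of primes `‖α q_v - b_v‖ ≤ q_v^{-τ}`.

Proof. The sets `‖n x - b‖ ≤ δ`, `‖n' x - b'‖ ≤ δ'` of the circle with coprime `n`, `n'` are almost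
independent: the measure of their intersection is at most `m m' + m' / n'`.  So the variance of the
number of solutions is of the order of its expected value, and the bad set of a scale `N` is covered by
`O(N^{2τ} log N)` intervals of length `c N^{-1-τ}`.  For the lower bound, a number with infinitely many
approximations `|α - a/n| < n^{-κ}`, `κ > 1 + 1/τ`, is not typical, since there are no such primes
between `(2n)^{1/τ}` and `n^{κ-1}/2` (up to a bounded number); these numbers form a set of dimension
`2/κ` by the theorem of Jarník and Besicovitch, which is taken from the library.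
-/

set_option autoImplicit false

namespace Pool.Agent.Results.MP_3da4c4_nt.SparsePrimes

open NumberField IsDedekindDomain Filter Topology MeasureTheory
open Pool.Agent.H419.BS (Equidistributed)
open Pool.Agent.H419.SP

theorem result (K : Type) [Field K] [NumberField K]
    (G : Type) [Group G] [TopologicalSpace G] [IsTopologicalGroup G] [CompactSpace G] [T2Space G]
    [SecondCountableTopology G] [MeasurableSpace G] [BorelSpace G] (μ : Measure G)
    [IsProbabilityMeasure μ] [μ.IsHaarMeasure] (x : HeightOneSpectrum (𝓞 K) → G)
    (τ : ℝ) (h0 : 0 < τ) (h1 : τ < 1) :
    (∀ b : HeightOneSpectrum (𝓞 K) → ℝ,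
      dimH {α : ℝ | ¬ Typical τ b x α} ≤ ENNReal.ofReal (2 * τ / (1 + τ))) ∧
    dimH {α : ℝ | ¬ Typical τ (fun _ => 0) x α} = ENNReal.ofReal (2 * τ / (1 + τ)) ∧
    ∀ (b : HeightOneSpectrum (𝓞 K) → ℝ) (α : ℝ), Typical τ b x α →
      (Equidistributed (Near τ b α) x μ ↔ Equidistributed (fun _ => True) x μ) :=
  ⟨fun b => dim_le x b h0 h1, dim_eq x h0 h1, fun _ _ hα => law_iff μ h0 h1 hα⟩

end Pool.Agent.Results.MP_3da4c4_nt.SparsePrimes
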