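import Mathlib
import Pool.Agent.H419.RQ.Sharp

set_option autoImplicit false

/-!
# The Sato-Tate law for two of three primes with given sum

`G` is a compact group (`USp(2g)` for a generic curve `C` of genus `g` over `ℚ`), `μ` a probability
measure on `G` (the Haar measure) and `x_p ∈ G`, `p` prime, an arbitrary sequence (the normalized
Frobenius classes of `C`; no hypothesis is made on it, `x` may take arbitrary values at the finitely
many primes of bad reduction). `LawResidues x μ` is the law of Sato and Tate in residue classes: for
all `m` and all `c` prime to `m` the mean value of `f(x_p)` over the primes `p ≤ N`, `p ≡ c (mod m)`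
tends to `∫ f dμ` for all continuous class functions `f`.

**Part 1.** For every bounded function `a` on the primes are equivalent:

* `Residue a`: the sum of `a(p)` over the `p ≤ N` in any residue class is `o(N / log N)`;
* `Binary a`: `∑_{n ≤ N} |∑_{p + p' = n} a(p) b(p')|² = o(N³ / log⁴ N)` for all weights `b` modulo `m`
  (functions of the residue class modulo `m`, bounded by `1`, possibly cut off: `b(n) = 0` for
  `n > y`), uniformly in `b` (and `y`) for fixed `m`;
* `Difference a`: the same for `p - p' = k`;
* `Ternary a`: `∑_{p + p' + p'' = n} a(p) h(p') b(p'') = o(n² / log³ n)` for all `n`, uniformly for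
  **all** functions `h` bounded by `1` and all weights `b` modulo `m`;
* `Quadruple a`: `∑ a(p₁) h(p₂) k(p₃) b(p₄) = o(N³ / log⁴ N)` over `p₁ + p₂ = p₃ + p₄`, `p_i ≤ N`,
  uniformly for **all** functions `h`, `k` bounded by `1` and all weights `b` modulo `m`.

**Part 2.** Hence the law in residue classes is equivalent to the laws in the additive problems, and
it implies: for almost all even `n` the class `x_p` is distributed according to `μ` in the
representations `n = p + p'`; for odd `n → ∞` the pair `(x_p, x_{p'})` is distributed according to
`μ × μ` in the representations `n = p + p' + p''`; the triple `(x_{p₁}, x_{p₂}, x_{p₃})` is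
distributed according to `μ × μ × μ` in the solutions of `p₁ + p₂ = p₃ + p₄`, `p_i ≤ N`.

**Part 3.** The numbers one, two and three of the classes are optimal: for `x_p = e(√2 p)` in the
circle group the law holds in all residue classes, but `x_p x_{p'}`, `x_p x_{p'} x_{p''}` and
`x_{p₁} x_{p₂} / (x_{p₃} x_{p₄})` are constant, so that the mean values of these products have
absolute value `1` and not the limit `0` given by the product of the integrals.

For `g = 1` (elliptic curves over `ℚ` without complex multiplication) the law in residue classes is
known (potential automorphy of the twists of the symmetric powers), so Part 2 gives the joint law of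
two of the three angles in Vinogradov's theorem. The proof uses the restriction estimate with
exponent `5/2` for arbitrary bounded coefficients on the primes (`Pool.Agent.H419.RT.moment`), the
exponential sums over primes at all points, the theorem of Siegel and Walfisz and the formula of
Hardy and Littlewood for almost all even numbers (for the lower bounds of the numbers of the
representations).
-/

namespace Pool.Agent.Results.MP_3da4c4_nt.SumsOfPrimes

open MeasureTheory Pool.Agent.H419.RQ

/-- **The Sato-Tate law for two of three primes with given sum.** -/
theorem result :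
    (∀ a : ℕ → ℂ, (∃ B : ℝ, ∀ p, ‖a p‖ ≤ B) →
      List.TFAE [Residue a, Binary a, Difference a, Ternary a, Quadruple a]) ∧
    (∀ (G : Type) [Group G] [TopologicalSpace G] [CompactSpace G] [MeasurableSpace G]
      [BorelSpace G] (μ : Measure G) [IsProbabilityMeasure μ] (x : ℕ → G),
      List.TFAE [LawResidues x μ, Law Binary x μ, Law Difference x μ, Law Ternary x μ,
        Law Quadruple x μ] ∧
      (LawResidues x μ → LawGoldbach x μ ∧ LawTwoOfThree x μ ∧ LawThreeOfFour x μ)) ∧
    ∃ x : ℕ → Circle, LawResidues x haarCircle ∧ ∫ z : Circle, (z : ℂ) ∂haarCircle = 0 ∧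
      (∀ n, (pairs n).Nonempty → ‖mean (pairs n) (fun q => (x q.1 : ℂ) * x q.2)‖ = 1) ∧
      (∀ n, (triples n).Nonempty →
        ‖mean (triples n) (fun q => (x q.1 : ℂ) * x q.2.1 * x q.2.2)‖ = 1) ∧
      (∀ N, (quads N).Nonempty → mean (quads N) (fun q => (x q.1 : ℂ) * x q.2.1 *
        (starRingEnd ℂ) (x q.2.2.1 : ℂ) * (starRingEnd ℂ) (x q.2.2.2 : ℂ)) = 1) :=
  ⟨fun _ ⟨_, h⟩ => equivalences h, fun _ _ _ _ _ _ μ _ x => ⟨laws x μ, consequences x μ⟩,
    xc, sharp⟩

end Pool.Agent.Results.MP_3da4c4_nt.SumsOfPrimes
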